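import Pool.Agent.H41.PRK.S5
import Pool.Agent.H59.HYP.CTM
import Pool.Agent.H88.T1.CTSK

/-!
# PRK, row CTMY: the number of pairs with local conditions
-/

set_option autoImplicit false
set_option linter.overlappingInstances false
set_option linter.unusedSectionVars false

namespace Pool.PRK

open Polynomial Matrix Pool.HYP Pool.TOW Pool.AVS Pool.T1 IsDedekindDomain

namespace CTM41

/-- The norm of a product of coprime ideals. -/
theorem card_prod {R ι : Type} [CommRing R] (t : Finset ι) (J : ι → Ideal R)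
    (h : ∀ a ∈ t, ∀ b ∈ t, a ≠ b → IsCoprime (J a) (J b)) :
    Nat.card (R ⧸ ∏ a ∈ t, J a) = ∏ a ∈ t, Nat.card (R ⧸ J a) := by
  classical
  induction t using Finset.induction_on with
  | empty =>
    rw [Finset.prod_empty, Finset.prod_empty, Ideal.one_eq_top]
    have : Subsingleton (R ⧸ (⊤ : Ideal R)) := Ideal.Quotient.subsingleton_iff.2 rfl
    exact Nat.card_unique
  | insert a t ha ih =>
    rw [Finset.prod_insert ha, Finset.prod_insert ha]
    have h1 : IsCoprime (J a) (∏ b ∈ t, J b) := by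
      refine IsCoprime.prod_right fun b hb => h a (Finset.mem_insert_self _ _) b
        (Finset.mem_insert_of_mem hb) ?_
      rintro rfl
      exact ha hb
    have h3 := cardQuot_mul_of_coprime h1
    rw [Submodule.cardQuot_apply, Submodule.cardQuot_apply, Submodule.cardQuot_apply] at h3
    rw [h3, ih fun x hx y hy => h x (Finset.mem_insert_of_mem hx) y (Finset.mem_insert_of_mem hy)]

theorem prod_mono {R ι : Type} [CommRing R] (s : Finset ι) (F G : ι → Ideal R)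
    (h : ∀ a ∈ s, F a ≤ G a) : ∏ a ∈ s, F a ≤ ∏ a ∈ s, G a := by
  classical
  induction s using Finset.induction_on with
  | empty => rw [Finset.prod_empty, Finset.prod_empty]
  | insert a t ha ih =>
    rw [Finset.prod_insert ha, Finset.prod_insert ha]
    exact Ideal.mul_mono (h a (Finset.mem_insert_self _ _))
      (ih fun x hx => h x (Finset.mem_insert_of_mem hx))

/-- `gr` and ring maps. -/
theorem gr_map {R S : Type} [CommRing R] [CommRing S] (φ : R →+* S) {f : R[X]} (hf : f.Monic)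
    (k n : ℕ) (p : R[X]) (hφ : (1 : S) ≠ 0) :
    (gr k n f p).map φ = gr k n (f.map φ) (p.map φ) := by
  ext i j
  rw [Matrix.map_apply]
  simp only [gr, Matrix.of_apply]
  rw [← Pool.HYP59.tau_map φ hf _ hφ, Polynomial.map_mul, Polynomial.map_pow, map_X]

section Count

variable {R : Type} [CommRing R] [IsDomain R] {K : Type} [Field K] [Algebra R K]
  {O : ValuationSubring K}

/-- The residues of `S` at a prime of type `(0, e)`. -/
def Y1 (g : ℕ) (P : Ideal R) (d c : R) (γ : R[X]) (e : ZMod 2)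
    (G : Matrix (Fin (2 * g + 1)) (Fin (2 * g + 1)) R) :
    Set (Matrix (Fin (2 * g + 1)) (Fin (2 * g + 1)) (R ⧸ P)) :=
  {S | ∃ (a : Matrix (Fin (2 * g + 1)) (Fin (2 * g + 1)) (R ⧸ P)) (p : (R ⧸ P)[X]), a.det ≠ 0 ∧
    IsCoprime p ((X - C (Ideal.Quotient.mk P c)) * md P γ) ∧
    (e = 0 ↔ IsSquare (p.eval (Ideal.Quotient.mk P c))) ∧
    (e = 0 ↔ ∃ s : (R ⧸ P)[X], md P γ ∣ p - s ^ 2) ∧
    G.map (Ideal.Quotient.mk P) =
      aᵀ * gr 0 (2 * g + 1) ((X - C (Ideal.Quotient.mk P c)) * md P γ) p * a ∧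
    S = Ideal.Quotient.mk P d •
      (aᵀ * gr 1 (2 * g + 1) ((X - C (Ideal.Quotient.mk P c)) * md P γ) p * a)}

/-- The residues of `S` at a prime of type `(1, 0)`. -/
def Y3 (g : ℕ) (P : Ideal R) (d c : R) (γ : R[X])
    (G : Matrix (Fin (2 * g + 1)) (Fin (2 * g + 1)) R) :
    Set (Matrix (Fin (2 * g + 1)) (Fin (2 * g + 1)) (R ⧸ P ^ 3)) :=
  {S | ShA g (Ideal.Quotient.mk (P ^ 3) d) (Ideal.Quotient.mk (P ^ 3) c)
    (γ.map (Ideal.Quotient.mk (P ^ 3))) (G.map (Ideal.Quotient.mk (P ^ 3))) S}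

/-- The ideals. -/
def JJ (b : Ideal R) : Unit ⊕ (HeightOneSpectrum R ⊕ HeightOneSpectrum R) → Ideal R
  | .inl _ => b
  | .inr (.inl P) => P.asIdeal
  | .inr (.inr P) => P.asIdeal ^ 3

/-- The sets of residues. -/
def YY (b : Ideal R) (g : ℕ) (D : Dat R O) (y : HeightOneSpectrum R → Ty) (d : R)
    (G : Matrix (Fin (2 * g + 1)) (Fin (2 * g + 1)) R) :
    ∀ a : Unit ⊕ (HeightOneSpectrum R ⊕ HeightOneSpectrum R),
      Set (Matrix (Fin (2 * g + 1)) (Fin (2 * g + 1)) (R ⧸ JJ b a))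
  | .inl _ => {0}
  | .inr (.inl P) => Y1 g P.asIdeal d (D.c P) (D.γ P) (y P).2 G
  | .inr (.inr P) => Y3 g P.asIdeal d (D.c P) (D.γ P) G

theorem fam_map {π : K} {g : ℕ} {D : Dat R O} {h : ℕ} {f : R[X]} (hf : f ∈ Fam π g D h)
    {P : HeightOneSpectrum R} (hP : P ∈ D.T) :
    md P.asIdeal f = (X - C (Ideal.Quotient.mk P.asIdeal (D.c P))) * md P.asIdeal (D.γ P) := by
  have hr := hf.2.2.1 P hP
  have h1 : (f - (X - C (D.c P)) * D.γ P).map (Ideal.Quotient.mk P.asIdeal) = 0 := by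
    ext i
    rw [coeff_map, coeff_zero]
    exact Ideal.Quotient.eq_zero_iff_mem.2 (hr i)
  rw [Polynomial.map_sub, sub_eq_zero, Polynomial.map_mul, Polynomial.map_sub,
    Polynomial.map_X, Polynomial.map_C] at h1
  exact h1

theorem map_cong {n : ℕ} {P : Ideal R} {A B : Matrix (Fin n) (Fin n) R}
    (h : ∀ i j, (A - B) i j ∈ P) :
    A.map (Ideal.Quotient.mk P) = B.map (Ideal.Quotient.mk P) := by
  ext i j
  rw [Matrix.map_apply, Matrix.map_apply, Ideal.Quotient.mk_eq_mk_iff_sub_mem]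
  exact h i j

theorem mem_Y1 {π : K} {g : ℕ} {D : Dat R O} {h : ℕ} {f : R[X]} (hf : f ∈ Fam π g D h)
    {P : HeightOneSpectrum R} (hP : P ∈ D.T) {d : R} {e : ZMod 2}
    {G S : Matrix (Fin (2 * g + 1)) (Fin (2 * g + 1)) R}
    (hst : UnS (2 * g + 1) P.asIdeal d (D.c P) (D.γ P) f e G S) :
    S.map (Ideal.Quotient.mk P.asIdeal) ∈ Y1 g P.asIdeal d (D.c P) (D.γ P) e G := by
  obtain ⟨a, p, ha, hp, he, he', hG, hS⟩ := hst
  have hnt : (1 : R ⧸ P.asIdeal) ≠ 0 := by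
    have : Nontrivial (R ⧸ P.asIdeal) := Ideal.Quotient.nontrivial_iff.2 P.isPrime.ne_top
    exact one_ne_zero
  have hfm := fam_map hf hP
  have hcomp : ∀ k, (aᵀ * gr k (2 * g + 1) f p * a).map (Ideal.Quotient.mk P.asIdeal) =
      (a.map (Ideal.Quotient.mk P.asIdeal))ᵀ * gr k (2 * g + 1)
      ((X - C (Ideal.Quotient.mk P.asIdeal (D.c P))) * md P.asIdeal (D.γ P)) (md P.asIdeal p) *
      a.map (Ideal.Quotient.mk P.asIdeal) := by
    intro k
    rw [Matrix.map_mul, Matrix.map_mul, gr_map _ hf.1.1 _ _ _ hnt, ← hfm, Matrix.transpose_map]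
  refine ⟨a.map (Ideal.Quotient.mk P.asIdeal), md P.asIdeal p, ?_, ?_, ?_, ?_, ?_, ?_⟩
  · rw [← RingHom.mapMatrix_apply, ← RingHom.map_det]
    intro h0
    exact ha (Ideal.Quotient.eq_zero_iff_mem.1 h0)
  · rw [← hfm]
    exact hp
  · rw [he]
    unfold md
    rw [Polynomial.eval_map_apply]
  · exact he'
  · rw [map_cong hG, hcomp]
  · rw [map_cong hS, ← hcomp]
    ext i j
    simp only [Matrix.map_apply, Matrix.smul_apply, smul_eq_mul, map_mul]

/-- The local count at a prime of type `(0, e)`. -/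
theorem card_Y1 (hX : CTXYStmt) [IsDedekindDomain R] {g : ℕ} (hg : 1 ≤ g)
    {P : HeightOneSpectrum R} (h2 : (2 : R) ∉ P.asIdeal) (hfin : Finite (R ⧸ P.asIdeal))
    {d c : R} {γ : R[X]} (hd : d ∉ P.asIdeal) (hok : OkP (2 * g) P.asIdeal γ) (e : ZMod 2)
    (G : Matrix (Fin (2 * g + 1)) (Fin (2 * g + 1)) R) :
    2 * (Nm P - (2 * g + 1)) * (Y1 g P.asIdeal d c γ e G).ncard ≤
      Nm P * Nm P ^ ((2 * g + 1) * g) := by
  obtain ⟨hγm, hγd, hγi⟩ := hok
  have hmax : P.asIdeal.IsMaximal := P.isMaximal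
  have hnt : Nontrivial (R ⧸ P.asIdeal) := Ideal.Quotient.nontrivial_iff.2 P.isPrime.ne_top
  have h2' : (2 : R ⧸ P.asIdeal) ≠ 0 := by
    intro h
    exact h2 (Ideal.Quotient.eq_zero_iff_mem.1 (by rw [map_ofNat]; exact h))
  have hd' : Ideal.Quotient.mk P.asIdeal d ≠ 0 := fun h => hd (Ideal.Quotient.eq_zero_iff_mem.1 h)
  let : Field (R ⧸ P.asIdeal) := Ideal.Quotient.field P.asIdeal
  exact hX (R ⧸ P.asIdeal) h2' g (Ideal.Quotient.mk P.asIdeal c) (Ideal.Quotient.mk P.asIdeal d)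
    (md P.asIdeal γ) e hg hd' (hγm.map _) (by rw [hγm.natDegree_map, hγd]) hγi
    (G.map (Ideal.Quotient.mk P.asIdeal))

/-- The local count at a prime of type `(1, 0)`. -/
theorem card_Y3 (hF : FBKStmt) (hP3 : P3KStmt) [IsDedekindDomain R] {g : ℕ} (hg : 1 ≤ g)
    {P : HeightOneSpectrum R} (h2 : (2 : R) ∉ P.asIdeal) (hfin : Finite (R ⧸ P.asIdeal))
    {d c : R} {γ : R[X]} (hd : d ∈ P.asIdeal) (hd' : d ∉ P.asIdeal ^ 2)
    (hok : OkP (2 * g) P.asIdeal γ) (G : Matrix (Fin (2 * g + 1)) (Fin (2 * g + 1)) R) :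
    2 * (Nm P - (2 * g + 1)) * (Y3 g P.asIdeal d c γ G).ncard ≤
      Nm P * Nm P ^ ((2 * g + 1) * (2 * g + 1)) := by
  obtain ⟨hγm, hγd, -⟩ := hok
  obtain ⟨hloc, hfin3, hu, hc1, hc2, hu2⟩ := hP3 R P d hfin h2 hd hd'
  have hmax : IsLocalRing.maximalIdeal (R ⧸ P.asIdeal ^ 3) =
      Ideal.span {Ideal.Quotient.mk (P.asIdeal ^ 3) d} := by
    ext x
    rw [IsLocalRing.mem_maximalIdeal, mem_nonunits_iff, hu, not_not]
  exact hF (R ⧸ P.asIdeal ^ 3) (Ideal.Quotient.mk (P.asIdeal ^ 3) d) (Nm P) g hg hmax hc1 hc2 hu2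
    (Ideal.Quotient.mk (P.asIdeal ^ 3) c) (γ.map (Ideal.Quotient.mk (P.asIdeal ^ 3)))
    (hγm.map _) (by rw [hγm.natDegree_map, hγd]) (G.map (Ideal.Quotient.mk (P.asIdeal ^ 3)))

/-- The product of the local factors. -/
theorem prod_Y (hX : CTXYStmt) (hF : FBKStmt) (hP3 : P3KStmt) [IsDedekindDomain R] {g : ℕ}
    (hg : 1 ≤ g) {D : Dat R O} (hok : D.Ok g) (h2 : ∀ P : HeightOneSpectrum R, (2 : R) ∉ P.asIdeal)
    (hfin : ∀ P : HeightOneSpectrum R, Finite (R ⧸ P.asIdeal))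
    (hT : ∀ P ∈ D.T, 2 * (2 * g + 1) * D.T.card ≤ Nm P) (y : HeightOneSpectrum R → Ty) {d : R}
    (hd : ∀ P ∈ odd D.T y, d ∈ P.asIdeal ∧ d ∉ P.asIdeal ^ 2)
    (hd' : ∀ P ∈ D.T, P ∉ odd D.T y → d ∉ P.asIdeal)
    (G : Matrix (Fin (2 * g + 1)) (Fin (2 * g + 1)) R) (A B : Finset (HeightOneSpectrum R))
    (hA : ∀ P, P ∈ A ↔ P ∈ D.T ∧ P ∉ odd D.T y) (hB : B = odd D.T y) :
    2 ^ D.T.card * ((∏ P ∈ A, (Y1 g P.asIdeal d (D.c P) (D.γ P) (y P).2 G).ncard) *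
        ∏ P ∈ B, (Y3 g P.asIdeal d (D.c P) (D.γ P) G).ncard) ≤
      2 * ((∏ P ∈ A, Nm P) ^ ((2 * g + 1) * g) *
        (∏ P ∈ B, Nm P) ^ ((2 * g + 1) * (2 * g + 1))) := by
  classical
  subst hB
  have hsub : odd D.T y ⊆ D.T := Finset.filter_subset _ _
  have hA' : A = D.T \ odd D.T y := by
    ext P
    rw [hA, Finset.mem_sdiff]
  subst hA'
  set A := D.T \ odd D.T y with hAd
  set B := odd D.T y with hBd
  have hsp : ∀ F : HeightOneSpectrum R → ℕ, (∏ P ∈ A, F P) * ∏ P ∈ B, F P = ∏ P ∈ D.T, F P :=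
    fun F => Finset.prod_sdiff hsub
  have h1 : (∏ P ∈ A, 2 * (Nm P - (2 * g + 1))) *
      (∏ P ∈ A, (Y1 g P.asIdeal d (D.c P) (D.γ P) (y P).2 G).ncard) ≤
      (∏ P ∈ A, Nm P) * (∏ P ∈ A, Nm P) ^ ((2 * g + 1) * g) := by
    rw [← Finset.prod_mul_distrib, ← Finset.prod_pow, ← Finset.prod_mul_distrib]
    refine Finset.prod_le_prod' fun P hP => ?_
    have := (hA P).1 hP
    exact card_Y1 hX hg (h2 P) (hfin P) (hd' P this.1 this.2) (hok.2.1 P this.1) _ G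
  have h1' : (∏ P ∈ B, 2 * (Nm P - (2 * g + 1))) *
      (∏ P ∈ B, (Y3 g P.asIdeal d (D.c P) (D.γ P) G).ncard) ≤
      (∏ P ∈ B, Nm P) * (∏ P ∈ B, Nm P) ^ ((2 * g + 1) * (2 * g + 1)) := by
    rw [← Finset.prod_mul_distrib, ← Finset.prod_pow, ← Finset.prod_mul_distrib]
    exact Finset.prod_le_prod' fun P hP =>
      card_Y3 hF hP3 hg (h2 P) (hfin P) (hd P hP).1 (hd P hP).2 (hok.2.1 P (hsub hP)) G
  have h3 := Pool.HYP59.prod_sub D.T (2 * g + 1) (fun P => Nm P) hT (by omega)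
  have h5 := hsp (fun P => 2 * (Nm P - (2 * g + 1)))
  have h6 := hsp (fun P => Nm P)
  have h5' : ∏ P ∈ D.T, 2 * (Nm P - (2 * g + 1)) =
      2 ^ D.T.card * ∏ P ∈ D.T, (Nm P - (2 * g + 1)) := by
    rw [Finset.prod_mul_distrib, Finset.prod_const]
  rw [h5'] at h5
  have hq : 0 < ∏ P ∈ D.T, Nm P := Finset.prod_pos fun P _ => by
    have := hfin P
    have hnt : Nontrivial (R ⧸ P.asIdeal) := Ideal.Quotient.nontrivial_iff.2 P.isPrime.ne_top
    exact Nat.card_pos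
  set U := ∏ P ∈ A, Nm P
  set V := ∏ P ∈ B, Nm P
  set M := ∏ P ∈ D.T, Nm P
  set a := ∏ P ∈ A, 2 * (Nm P - (2 * g + 1))
  set b := ∏ P ∈ B, 2 * (Nm P - (2 * g + 1))
  set s := ∏ P ∈ A, (Y1 g P.asIdeal d (D.c P) (D.γ P) (y P).2 G).ncard
  set t := ∏ P ∈ B, (Y3 g P.asIdeal d (D.c P) (D.γ P) G).ncard
  set m := ∏ P ∈ D.T, (Nm P - (2 * g + 1))
  apply Nat.le_of_mul_le_mul_left _ hq
  calc M * (2 ^ D.T.card * (s * t)) ≤ 2 * m * (2 ^ D.T.card * (s * t)) :=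
        Nat.mul_le_mul_right _ h3
    _ = 2 * ((2 ^ D.T.card * m) * (s * t)) := by ring
    _ = 2 * ((a * s) * (b * t)) := by rw [← h5]; ring
    _ ≤ 2 * ((U * U ^ ((2 * g + 1) * g)) * (V * V ^ ((2 * g + 1) * (2 * g + 1)))) :=
        Nat.mul_le_mul_left _ (Nat.mul_le_mul h1 h1')
    _ = M * (2 * (U ^ ((2 * g + 1) * g) * V ^ ((2 * g + 1) * (2 * g + 1)))) := by
        rw [← h6]
        ring

end Count

end CTM41

open CTM41

theorem ctmy (hCTS : CTSKStmt) (hCTR : CTRGStmt) (hX : CTXYStmt) (hF : FBKStmt) (hP3 : P3KStmt)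
    (hTWO : TWOKStmt) (hBID : BIDYStmt) (hCCD : CCDYStmt) : CTMYStmt := by
  intro R _ _ K _ _ _ O π hGR hCnt g D h y d E e hg hok hT hTw hdist
  classical
  have hfin : ∀ P : HeightOneSpectrum R, Finite (R ⧸ P.asIdeal) := fun P => hGR.fin _ P.ne_bot
  have h2 : ∀ P : HeightOneSpectrum R, (2 : R) ∉ P.asIdeal := hTWO R K O π hGR
  obtain ⟨b, hb0, hdb, hbT, hbE, hbS⟩ := hBID R K O π hGR g D y d E hok hTw
  have hsub : odd D.T y ⊆ D.T := Finset.filter_subset _ _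
  obtain ⟨B, hB⟩ : ∃ B, B = odd D.T y := ⟨_, rfl⟩
  obtain ⟨A, hA⟩ : ∃ A, A = D.T \ odd D.T y := ⟨_, rfl⟩
  have hmA : ∀ P, P ∈ A ↔ P ∈ D.T ∧ P ∉ odd D.T y := fun P => by
    rw [hA, Finset.mem_sdiff]
  have hBT : ∀ P ∈ B, P ∈ D.T := fun P hP => hsub (hB ▸ hP)
  have hAB : ∀ P ∈ A, ∀ P' ∈ B, P ≠ P' := by
    rintro P hP P' hP' rfl
    exact ((hmA P).1 hP).2 (hB ▸ hP')
  obtain ⟨hd0, hd1, hd2, -⟩ := hTw.1
  set t : Finset (Unit ⊕ (HeightOneSpectrum R ⊕ HeightOneSpectrum R)) :=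
    (Finset.univ : Finset Unit).disjSum (A.disjSum B) with ht
  have hpt : ∀ {M : Type} [CommMonoid M]
      (F : Unit ⊕ (HeightOneSpectrum R ⊕ HeightOneSpectrum R) → M),
      ∏ a ∈ t, F a = F (.inl ()) * ((∏ P ∈ A, F (.inr (.inl P))) *
        ∏ P ∈ B, F (.inr (.inr P))) := by
    intro M _ F
    rw [ht, Finset.prod_disjSum, Finset.prod_disjSum]
    simp
  have hJ0 : ∀ a ∈ t, JJ b a ≠ ⊥ := by
    rintro (a | P | P) -
    · exact hb0
    · exact P.ne_bot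
    · exact pow_ne_zero 3 P.ne_bot
  have hcopPP : ∀ P P' : HeightOneSpectrum R, P ≠ P' → IsCoprime P.asIdeal P'.asIdeal := by
    intro P P' hne
    have := P.isMaximal
    have := P'.isMaximal
    exact Ideal.isCoprime_of_isMaximal fun h => hne (HeightOneSpectrum.ext h)
  have hmt1 : ∀ P, (.inr (.inl P) : Unit ⊕ (HeightOneSpectrum R ⊕ HeightOneSpectrum R)) ∈ t →
      P ∈ A := fun P hP => by
    simpa [ht] using hP
  have hmt2 : ∀ P, (.inr (.inr P) : Unit ⊕ (HeightOneSpectrum R ⊕ HeightOneSpectrum R)) ∈ t →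
      P ∈ B := fun P hP => by
    simpa [ht] using hP
  have hcop : ∀ a ∈ t, ∀ a' ∈ t, a ≠ a' → IsCoprime (JJ b a) (JJ b a') := by
    rintro (a | P | P) ha (a' | P' | P') ha' hne
    · exact absurd rfl hne
    · exact hbT P' ((hmA P').1 (hmt1 P' ha')).1
    · exact (hbT P' (hBT P' (hmt2 P' ha'))).pow_right
    · exact (hbT P ((hmA P).1 (hmt1 P ha)).1).symm
    · exact hcopPP P P' fun h => hne (by rw [h])
    · exact (hcopPP P P' (hAB P (hmt1 P ha) P' (hmt2 P' ha'))).pow_right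
    · exact (hbT P (hBT P (hmt2 P ha))).symm.pow_left
    · exact (hcopPP P P' (hAB P' (hmt1 P' ha') P (hmt2 P ha)).symm).pow_left
    · exact (hcopPP P P' fun h => hne (by rw [h])).pow
  -- the norms
  obtain ⟨U, hU⟩ : ∃ U, U = ∏ P ∈ A, Nm P := ⟨_, rfl⟩
  obtain ⟨V, hV⟩ : ∃ V, V = ∏ P ∈ B, Nm P := ⟨_, rfl⟩
  obtain ⟨β, hβ⟩ : ∃ β, β = Nat.card (R ⧸ b) := ⟨_, rfl⟩
  obtain ⟨M, hM⟩ : ∃ M, M = ∏ P ∈ D.T, Nm P := ⟨_, rfl⟩
  have hUV : U * V = M := by
    rw [hU, hV, hM, hA, hB]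
    exact Finset.prod_sdiff hsub
  have hβV : β * V = qq O ^ E := by
    rw [hβ, hV, hB]
    exact hbE
  have hcard : ∏ a ∈ t, Nat.card (R ⧸ JJ b a) = β * (U * V ^ 3) := by
    rw [hpt, hU, hV, ← Finset.prod_pow, hβ]
    refine congrArg₂ _ rfl (congrArg₂ _ rfl (Finset.prod_congr rfl fun P hP => ?_))
    have hP' : P ∈ odd D.T y := hB ▸ hP
    exact (hP3 R P d (hfin P) (h2 P) (hd1 P hP').1 (hd1 P hP').2).2.2.2.1
  -- distribution
  have hI0 : Ideal.span {d} * ∏ P ∈ D.T, P.asIdeal ^ 3 ≠ ⊥ := by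
    refine mul_ne_zero ?_ (Finset.prod_ne_zero_iff.2 fun P _ => pow_ne_zero 3 P.ne_bot)
    rw [Ne, Ideal.zero_eq_bot, Ideal.span_singleton_eq_bot]
    exact hd0
  have hIJ : Ideal.span {d} * ∏ P ∈ D.T, P.asIdeal ^ 3 ≤ ∏ a ∈ t, JJ b a := by
    rw [hpt, ← Finset.prod_sdiff hsub, ← hA, ← hB]
    refine Ideal.mul_mono ?_ (Ideal.mul_mono ?_ le_rfl)
    · rw [hdb]
      show b * ∏ P ∈ odd D.T y, P.asIdeal ≤ b
      exact Ideal.mul_le_left
    · exact prod_mono _ _ _ fun P _ => Ideal.pow_le_self (by norm_num)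
  have hdist' : ∀ (i j : Fin (2 * g + 1)) (r : R),
      {a ∈ Lm R O π (e i + e j + h + E) | a - r ∈ ∏ a ∈ t, JJ b a}.ncard *
        (∏ a ∈ t, Nat.card (R ⧸ JJ b a)) ≤ qq O ^ (e i + e j + h + E + 1).toNat := by
    intro i j r
    rw [← card_prod t (JJ b) hcop]
    exact hCCD R _ _ _ _ (hCnt _).1 hIJ (hGR.fin _ hI0) (hdist i j) r
  obtain ⟨hGf, hGc⟩ := hCTS R K O π hCnt (2 * g + 1) (fun i j => e i + e j)
  obtain ⟨hSf, -⟩ := hCTS R K O π hCnt (2 * g + 1) (fun i j => e i + e j + h + E)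
  have hESk : sumLe (fun i j : Fin (2 * g + 1) => (e i + e j + h + E + 1).toNat) =
      ESk e (h + E) := by
    unfold ESk
    simp only [Nat.cast_add, add_assoc]
  have hpos : ∀ P : HeightOneSpectrum R, 0 < Nm P := fun P => by
    have := hfin P
    have hnt : Nontrivial (R ⧸ P.asIdeal) := Ideal.Quotient.nontrivial_iff.2 P.isPrime.ne_top
    exact Nat.card_pos
  have hUpos : 0 < U := hU ▸ Finset.prod_pos fun P _ => hpos P
  have hVpos : 0 < V := hV ▸ Finset.prod_pos fun P _ => hpos P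
  -- the number of matrices `S`
  have hS : ∀ G : Matrix (Fin (2 * g + 1)) (Fin (2 * g + 1)) R,
      2 ^ D.T.card * {S : Matrix (Fin (2 * g + 1)) (Fin (2 * g + 1)) R | Sᵀ = S ∧
        (∀ i j, S i j ∈ Lm R O π (e i + e j + h + E)) ∧
        ∀ a ∈ t, S.map (Ideal.Quotient.mk (JJ b a)) ∈ YY b g D y d G a}.ncard *
        M ^ (2 * g + 1) * qq O ^ (E * ((2 * g + 1) * (g + 1))) ≤ 2 * qq O ^ ESk e (h + E) := by
    intro G
    have h1 := hCTR R K O π hGR hCnt (2 * g + 1) _ t (JJ b) hJ0 hcop (YY b g D y d G)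
      (fun i j => e i + e j + h + E) hdist'
    have hexp : (2 * g + 1) * (2 * g + 1 + 1) / 2 = (2 * g + 1) * (g + 1) := by
      have : (2 * g + 1) * (2 * g + 1 + 1) = 2 * ((2 * g + 1) * (g + 1)) := by ring
      rw [this, Nat.mul_div_cancel_left _ (by norm_num)]
    rw [hexp, hcard, hESk, hpt] at h1
    have hone : (YY b g D y d G (.inl ())).ncard = 1 := Set.ncard_singleton _
    rw [hone, one_mul] at h1
    have hpX := prod_Y hX hF hP3 hg hok h2 hfin hT y hd1 hd2 G A B hmA hB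
    rw [← hU, ← hV] at hpX
    set W := {S : Matrix (Fin (2 * g + 1)) (Fin (2 * g + 1)) R | Sᵀ = S ∧
        (∀ i j, S i j ∈ Lm R O π (e i + e j + h + E)) ∧
        ∀ a ∈ t, S.map (Ideal.Quotient.mk (JJ b a)) ∈ YY b g D y d G a}.ncard with hW
    set Z := (∏ P ∈ A, (YY b g D y d G (.inr (.inl P))).ncard) *
      ∏ P ∈ B, (YY b g D y d G (.inr (.inr P))).ncard with hZ
    have hpX' : 2 ^ D.T.card * Z ≤ 2 * (U ^ ((2 * g + 1) * g) *
      V ^ ((2 * g + 1) * (2 * g + 1))) := hpX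
    have hp : 0 < U ^ ((2 * g + 1) * g) * V ^ ((2 * g + 1) * (2 * g + 1)) :=
      Nat.mul_pos (pow_pos hUpos _) (pow_pos hVpos _)
    apply Nat.le_of_mul_le_mul_left _ hp
    calc U ^ ((2 * g + 1) * g) * V ^ ((2 * g + 1) * (2 * g + 1)) *
          (2 ^ D.T.card * W * M ^ (2 * g + 1) * qq O ^ (E * ((2 * g + 1) * (g + 1))))
        = 2 ^ D.T.card * (W * (β * (U * V ^ 3)) ^ ((2 * g + 1) * (g + 1))) := by
          rw [pow_mul (qq O), ← hβV, ← hUV]
          simp only [mul_pow, ← pow_mul]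
          have e1 : (2 * g + 1) * (g + 1) = (2 * g + 1) * g + (2 * g + 1) := by ring
          have e2 : 3 * ((2 * g + 1) * (g + 1)) = (2 * g + 1) * (2 * g + 1) + (2 * g + 1) +
            (2 * g + 1) * (g + 1) := by ring
          rw [e2, pow_add V, pow_add V]
          have e3 : U ^ ((2 * g + 1) * (g + 1)) =
            U ^ ((2 * g + 1) * g) * U ^ (2 * g + 1) := by rw [e1, pow_add]
          rw [e3]
          ring
      _ ≤ 2 ^ D.T.card * (Z * qq O ^ ESk e (h + E)) := Nat.mul_le_mul_left _ h1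
      _ = (2 ^ D.T.card * Z) * qq O ^ ESk e (h + E) := by ring
      _ ≤ (2 * (U ^ ((2 * g + 1) * g) * V ^ ((2 * g + 1) * (2 * g + 1)))) *
          qq O ^ ESk e (h + E) := Nat.mul_le_mul_right _ hpX'
      _ = U ^ ((2 * g + 1) * g) * V ^ ((2 * g + 1) * (2 * g + 1)) *
          (2 * qq O ^ ESk e (h + E)) := by ring
  -- finiteness
  have hPsub : PPY π g D h y d E e ⊆ {G : Matrix (Fin (2 * g + 1)) (Fin (2 * g + 1)) R | Gᵀ = G ∧
      ∀ i j, G i j ∈ Lm R O π (e i + e j)} ×ˢ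
      {G : Matrix (Fin (2 * g + 1)) (Fin (2 * g + 1)) R | Gᵀ = G ∧
      ∀ i j, G i j ∈ Lm R O π (e i + e j + h + E)} := by
    rintro ⟨G, S⟩ ⟨f, -, hPM⟩
    exact ⟨⟨hPM.1, hPM.2.2.1⟩, ⟨hPM.2.1, hPM.2.2.2.1⟩⟩
  have hPf : (PPY π g D h y d E e).Finite := (hGf.prod hSf).subset hPsub
  have hmap : ∀ p ∈ hPf.toFinset, Prod.fst p ∈ hGf.toFinset := by
    intro p hp
    rw [Set.Finite.mem_toFinset] at hp ⊢
    exact (hPsub hp).1
  rw [Set.ncard_eq_toFinset_card _ hPf, Finset.card_eq_sum_card_fiberwise hmap,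
    Finset.mul_sum, Finset.sum_mul, Finset.sum_mul, ← hM]
  calc _ ≤ ∑ G ∈ hGf.toFinset, 2 * qq O ^ ESk e (h + E) := by
        apply Finset.sum_le_sum
        intro G _
        refine le_trans (Nat.mul_le_mul_right _ (Nat.mul_le_mul_right _
          (Nat.mul_le_mul_left _ ?_))) (hS G)
        have hfin' : {S : Matrix (Fin (2 * g + 1)) (Fin (2 * g + 1)) R | Sᵀ = S ∧
            (∀ i j, S i j ∈ Lm R O π (e i + e j + h + E)) ∧
            ∀ a ∈ t, S.map (Ideal.Quotient.mk (JJ b a)) ∈ YY b g D y d G a}.Finite :=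
          hSf.subset fun S hS => ⟨hS.1, hS.2.1⟩
        rw [Set.ncard_eq_toFinset_card _ hfin']
        apply Finset.card_le_card_of_injOn Prod.snd
        · rintro ⟨G', S⟩ hp
          rw [Finset.mem_coe, Finset.mem_filter, Set.Finite.mem_toFinset] at hp
          obtain ⟨⟨f, hf, hPM⟩, rfl⟩ := hp
          rw [Finset.mem_coe, Set.Finite.mem_toFinset]
          refine ⟨hPM.2.1, hPM.2.2.2.1, ?_⟩
          rintro (a | P | P) ha
          · show S.map (Ideal.Quotient.mk b) ∈ ({0} : Set _)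
            rw [Set.mem_singleton_iff]
            ext i j
            show Ideal.Quotient.mk b (S i j) = 0
            rw [Ideal.Quotient.eq_zero_iff_mem]
            exact hbS _ fun P hP => hPM.2.2.2.2.2.2.1 P hP i j
          · have hP := (hmA P).1 (hmt1 P ha)
            have hy : (y P).1 = 0 := by
              have h3 : ¬ (y P).1 = 1 := fun h => hP.2 (by
                unfold odd
                rw [Finset.mem_filter]
                exact ⟨hP.1, h⟩)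
              have h4 : ∀ x : ZMod 2, x ≠ 1 → x = 0 := by decide
              exact h4 _ h3
            exact mem_Y1 hf hP.1 ((hPM.2.2.2.2.2.2.2.1 P hP.1).1 hy)
          · have hP := hmt2 P ha
            have hy : (y P).1 = 1 := by
              have h3 : P ∈ odd D.T y := hB ▸ hP
              unfold odd at h3
              exact (Finset.mem_filter.1 h3).2
            exact (hPM.2.2.2.2.2.2.2.1 P (hBT P hP)).2 hy
        · rintro ⟨G', S⟩ hp ⟨G'', S'⟩ hp' hSS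
          rw [Finset.mem_coe, Finset.mem_filter] at hp hp'
          exact Prod.ext (hp.2.trans hp'.2.symm) hSS
    _ = hGf.toFinset.card * (2 * qq O ^ ESk e (h + E)) := by
        rw [Finset.sum_const, smul_eq_mul]
    _ ≤ qq O ^ EGk e * (2 * qq O ^ ESk e (h + E)) := by
        apply Nat.mul_le_mul_right
        rw [← Set.ncard_eq_toFinset_card _ hGf]
        exact hGc
    _ = 2 * qq O ^ (EGk e + ESk e (h + E)) := by rw [pow_add]; ring

end Pool.PRK
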