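import Pool.Agent.H41.PRK.S5
import Pool.Agent.H79.PRK.S6

/-!
# PRK: the end of the counting part in the form of part 6
-/

set_option autoImplicit false

namespace Pool.PRK

open Polynomial Matrix Pool.HYP Pool.TOW Pool.AVS Pool.T1 IsDedekindDomain

/-- The conclusion of BADY is `AvP`. -/
theorem avp (h : BADYStmt) (R : Type) [CommRing R] [IsDedekindDomain R] (K : Type) [Field K]
    [Algebra R K] [IsFractionRing R K] (O : ValuationSubring K) (π : K) (hG : GR R O π)
    (hU : CntU R O π) (hL : ∃ c : ℕ, CntL R O π c) (hC : ∃ C : ℕ, CntC R O π C) (g : ℕ)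
    (hg : 1 ≤ g) (hK : ∃ C : ℤ, KeyY R O π g C) (hF : ∃ c : ℕ, FamL R O π g c)
    (hI : ∀ (D : Dat R O) (h : ℕ), D.Ok g → ∀ f ∈ Fam π g D h, Irreducible (fk K f))
    (T' : Finset (HeightOneSpectrum R)) : ∃ C b : ℕ, AvP O π g T' C b :=
  h R K O π hG hU hL hC g hg hK hF hI T'

end Pool.PRK
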