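import Pool.Agent.H79.PRK.S1

/-!
# PRK: statements of the modules, part 5 (counting pairs of matrices with a pattern)
-/

set_option autoImplicit false

namespace Pool.PRK

open Polynomial Matrix Pool.HYP Pool.TOW Pool.AVS Pool.T1 IsDedekindDomain

section Defs5

variable {R : Type} [CommRing R] [IsDomain R] {K : Type} [Field K] [Algebra R K]

/-- The polynomials attached to `e`. -/
def PFY {O : ValuationSubring K} (π : K) (g : ℕ) (D : Dat R O) (h : ℕ)
    (y : HeightOneSpectrum R → Ty) (d : R) (E : ℕ) (e : Fin (2 * g + 1) → ℤ) : Set R[X] :=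
  {f ∈ Fam π g D h | ∃ G S, PMY π g D h y d E e f G S}

/-- The pairs attached to `e`. -/
def PPY {O : ValuationSubring K} (π : K) (g : ℕ) (D : Dat R O) (h : ℕ)
    (y : HeightOneSpectrum R → Ty) (d : R) (E : ℕ) (e : Fin (2 * g + 1) → ℤ) :
    Set (Matrix (Fin (2 * g + 1)) (Fin (2 * g + 1)) R ×
      Matrix (Fin (2 * g + 1)) (Fin (2 * g + 1)) R) :=
  {p | ∃ f ∈ Fam π g D h, PMY π g D h y d E e f p.1 p.2}

end Defs5

/-! ### Local counts -/

/-- CTXY: the number of the matrices `S` for given `G`, over a finite field, for the type `(0, e)`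
(for `e = 0` this is CTX of HYP, up to the unit `u`; for `e = 1` all `p` of type `(0, 1)` differ by
squares modulo `f`, so the `S` are again one orbit of `O(G)`, with stabiliser of order four: use
SQI and the proof of CTX with `p` instead of `1`). -/
def CTXYStmt : Prop :=
  ∀ (k : Type) [Field k] [Finite k], (2 : k) ≠ 0 → ∀ (g : ℕ) (c u : k) (γ : k[X]) (e : ZMod 2),
    1 ≤ g → u ≠ 0 → γ.Monic → γ.natDegree = 2 * g → Irreducible γ →
    ∀ G : Matrix (Fin (2 * g + 1)) (Fin (2 * g + 1)) k,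
    2 * (Nat.card k - (2 * g + 1)) *
      {S : Matrix (Fin (2 * g + 1)) (Fin (2 * g + 1)) k |
        ∃ (a : Matrix (Fin (2 * g + 1)) (Fin (2 * g + 1)) k) (p : k[X]), a.det ≠ 0 ∧
          IsCoprime p ((X - C c) * γ) ∧ (e = 0 ↔ IsSquare (p.eval c)) ∧
          (e = 0 ↔ ∃ s : k[X], γ ∣ p - s ^ 2) ∧
          G = aᵀ * gr 0 (2 * g + 1) ((X - C c) * γ) p * a ∧
          S = u • (aᵀ * gr 1 (2 * g + 1) ((X - C c) * γ) p * a)}.ncard ≤
      Nat.card k * Nat.card k ^ ((2 * g + 1) * g)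

/-- FBA: the number of the symmetric matrices in the class of a unimodular one, over a finite local
ring `A` with `A/d` of order `q` and `A` of order `q³`.  (Over the residue field CX3, CX4 of HYP;
every residue class of symmetric matrices has `q^(N (N + 1))` elements; congruence modulo `d` lifts
since `2` is a unit and `d` is nilpotent: `G'' = G' + d M`, `a = 1 + (1/2) d G'⁻¹ M`; for odd `N`
multiplication by a unit which is not a square exchanges the two classes.) -/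
def FBAStmt : Prop :=
  ∀ (A : Type) [CommRing A] [Finite A] [IsLocalRing A] (d : A) (q g : ℕ), 1 ≤ g →
    IsLocalRing.maximalIdeal A = Ideal.span {d} → Nat.card A = q ^ 3 →
    Nat.card (A ⧸ Ideal.span {d}) = q → IsUnit (2 : A) →
    ∀ G : Matrix (Fin (2 * g + 1)) (Fin (2 * g + 1)) A, Gᵀ = G → IsUnit G.det →
    (q - (2 * g + 1)) * q ^ (3 * ((2 * g + 1) * (g + 1))) ≤
      2 * q * {G' : Matrix (Fin (2 * g + 1)) (Fin (2 * g + 1)) A |
        ∃ a : Matrix (Fin (2 * g + 1)) (Fin (2 * g + 1)) A, IsUnit a.det ∧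
          G' = aᵀ * G * a}.ncard

/-- FBB: the number of the pairs in standard form (a box: the entries `i ≤ j` are in cosets of
`(d)`, `(d²)`, `(d³) = 0`; the sum of the codimensions is `6 g² + 7 g + 3`). -/
def FBBStmt : Prop :=
  ∀ (A : Type) [CommRing A] [Finite A] [IsLocalRing A] (d : A) (q g : ℕ), 1 ≤ g →
    IsLocalRing.maximalIdeal A = Ideal.span {d} → Nat.card A = q ^ 3 →
    Nat.card (A ⧸ Ideal.span {d}) = q → IsUnit (2 : A) → ∀ (c : A) (γ : A[X]), γ.Monic →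
    γ.natDegree = 2 * g →
    {p : Matrix (Fin (2 * g + 1)) (Fin (2 * g + 1)) A ×
        Matrix (Fin (2 * g + 1)) (Fin (2 * g + 1)) A |
      p.1ᵀ = p.1 ∧ p.2ᵀ = p.2 ∧ BlkD g d c γ p.1 p.2}.ncard * q ^ (6 * g ^ 2 + 7 * g + 3) ≤
      q ^ (6 * ((2 * g + 1) * (g + 1)))

/-- The group preserving the pairs in standard form: `ε`, `ε'` are the two signs. -/
def QGr {A : Type} [CommRing A] (g : ℕ) (d : A) :
    Set (Matrix (Fin (2 * g + 1)) (Fin (2 * g + 1)) A) :=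
  {a | ∃ ε ε' : A, (ε = 1 ∨ ε = -1) ∧ (ε' = 1 ∨ ε' = -1) ∧
    (∀ i j : Fin (2 * g + 1), (i : ℕ) < g → (j : ℕ) < g → d ∣ a i j - if i = j then ε else 0) ∧
    (∀ i j : Fin (2 * g + 1), g < (i : ℕ) → g < (j : ℕ) → d ∣ a i j - if i = j then ε else 0) ∧
    (∀ i : Fin (2 * g + 1), (i : ℕ) = g → d ∣ a i i - ε') ∧
    (∀ i j : Fin (2 * g + 1), (i : ℕ) < g → (j : ℕ) = g → d ∣ a i j) ∧
    (∀ i j : Fin (2 * g + 1), (i : ℕ) = g → g < (j : ℕ) → d ∣ a i j) ∧
    ∀ i j : Fin (2 * g + 1), (i : ℕ) < g → g < (j : ℕ) → d ^ 2 ∣ a i j}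

/-- FBG: the group `QGr` is closed under products, consists of invertible matrices, preserves the
pairs in standard form, and has `4 q^(3 N² - (4 g² + 2 g + 1))` elements. -/
def FBGStmt : Prop :=
  ∀ (A : Type) [CommRing A] [Finite A] [IsLocalRing A] (d : A) (q g : ℕ), 1 ≤ g →
    IsLocalRing.maximalIdeal A = Ideal.span {d} → Nat.card A = q ^ 3 →
    Nat.card (A ⧸ Ideal.span {d}) = q → IsUnit (2 : A) →
    (∀ a ∈ QGr g d, ∀ b ∈ QGr g d, a * b ∈ QGr g d) ∧ (∀ a ∈ QGr g d, IsUnit a.det) ∧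
    (∀ (c : A) (γ : A[X]) (G S a : Matrix (Fin (2 * g + 1)) (Fin (2 * g + 1)) A), γ.Monic →
      γ.natDegree = 2 * g → a ∈ QGr g d → Gᵀ = G → Sᵀ = S → BlkD g d c γ G S →
      BlkD g d c γ (aᵀ * G * a) (aᵀ * S * a)) ∧
    4 * q ^ (3 * (2 * g + 1) ^ 2) ≤ (QGr (A := A) g d).ncard * q ^ (4 * g ^ 2 + 2 * g + 1)

/-- FBQ: the number of all pairs which are equivalent to a pair in standard form (from FBB and FBG:
`(a, b) ↦ (aᵀ G a, aᵀ S a)` from all invertible matrices times the box is constant on the orbits of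
`QGr`, so each pair is hit at least `#QGr` times; `q^(3 N²)` matrices). -/
def FBQStmt : Prop :=
  ∀ (A : Type) [CommRing A] [Finite A] [IsLocalRing A] (d : A) (q g : ℕ), 1 ≤ g →
    IsLocalRing.maximalIdeal A = Ideal.span {d} → Nat.card A = q ^ 3 →
    Nat.card (A ⧸ Ideal.span {d}) = q → IsUnit (2 : A) → ∀ (c : A) (γ : A[X]), γ.Monic →
    γ.natDegree = 2 * g →
    4 * {p : Matrix (Fin (2 * g + 1)) (Fin (2 * g + 1)) A ×
        Matrix (Fin (2 * g + 1)) (Fin (2 * g + 1)) A | ShA g d c γ p.1 p.2}.ncard *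
        q ^ ((2 * g + 1) * (g + 2)) ≤ q ^ (6 * ((2 * g + 1) * (g + 1)))

/-- FBK: the number of the matrices `S` for given `G`, type `(1, 0)` (from FBA and FBQ; if there is
an `S`, then `G` is unimodular, and the number of the `S` is the same for all matrices in the class
of `G`). -/
def FBKStmt : Prop :=
  ∀ (A : Type) [CommRing A] [Finite A] [IsLocalRing A] (d : A) (q g : ℕ), 1 ≤ g →
    IsLocalRing.maximalIdeal A = Ideal.span {d} → Nat.card A = q ^ 3 →
    Nat.card (A ⧸ Ideal.span {d}) = q → IsUnit (2 : A) → ∀ (c : A) (γ : A[X]), γ.Monic →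
    γ.natDegree = 2 * g → ∀ G : Matrix (Fin (2 * g + 1)) (Fin (2 * g + 1)) A,
    2 * (q - (2 * g + 1)) *
      {S : Matrix (Fin (2 * g + 1)) (Fin (2 * g + 1)) A | ShA g d c γ G S}.ncard ≤
      q * q ^ ((2 * g + 1) * (2 * g + 1))

/-- TWOK: `2` is not in any prime (`R` has the characteristic of `K`, which is odd). -/
def TWOKStmt : Prop :=
  ∀ (R : Type) [CommRing R] [IsDedekindDomain R] (K : Type) [Field K] [Algebra R K]
    [IsFractionRing R K] (O : ValuationSubring K) (π : K), GR R O π →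
    ∀ P : HeightOneSpectrum R, (2 : R) ∉ P.asIdeal

/-- P3K: the ring `R / P³` and an element `d` of `P` which is not in `P²`. -/
def P3KStmt : Prop :=
  ∀ (R : Type) [CommRing R] [IsDedekindDomain R] (P : HeightOneSpectrum R) (d : R),
    Finite (R ⧸ P.asIdeal) → (2 : R) ∉ P.asIdeal → d ∈ P.asIdeal → d ∉ P.asIdeal ^ 2 →
    IsLocalRing (R ⧸ P.asIdeal ^ 3) ∧ Finite (R ⧸ P.asIdeal ^ 3) ∧
    (∀ x : R ⧸ P.asIdeal ^ 3, IsUnit x ↔
      x ∉ Ideal.span {Ideal.Quotient.mk (P.asIdeal ^ 3) d}) ∧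
    Nat.card (R ⧸ P.asIdeal ^ 3) = Nm P ^ 3 ∧
    Nat.card ((R ⧸ P.asIdeal ^ 3) ⧸ Ideal.span {Ideal.Quotient.mk (P.asIdeal ^ 3) d}) = Nm P ∧
    IsUnit (2 : R ⧸ P.asIdeal ^ 3)

/-! ### Global counts -/

/-- CTRG: symmetric matrices with given residues modulo finitely many coprime ideals (as CTRK of
T1). -/
def CTRGStmt : Prop :=
  ∀ (R : Type) [CommRing R] [IsDedekindDomain R] (K : Type) [Field K] [Algebra R K]
    [IsFractionRing R K] (O : ValuationSubring K) (π : K), GR R O π → CntU R O π →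
    ∀ (n : ℕ) (ι : Type) (t : Finset ι) (J : ι → Ideal R), (∀ a ∈ t, J a ≠ ⊥) →
    (∀ a ∈ t, ∀ b ∈ t, a ≠ b → IsCoprime (J a) (J b)) →
    ∀ (Y : ∀ a : ι, Set (Matrix (Fin n) (Fin n) (R ⧸ J a))) (e : Fin n → Fin n → ℤ),
    (∀ (i j : Fin n) (r : R), {a ∈ Lm R O π (e i j) | a - r ∈ ∏ a ∈ t, J a}.ncard *
      (∏ a ∈ t, Nat.card (R ⧸ J a)) ≤ qq O ^ (e i j + 1).toNat) →
    {S : Matrix (Fin n) (Fin n) R | Sᵀ = S ∧ (∀ i j, S i j ∈ Lm R O π (e i j)) ∧
      ∀ a ∈ t, S.map (Ideal.Quotient.mk (J a)) ∈ Y a}.ncard *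
        (∏ a ∈ t, Nat.card (R ⧸ J a)) ^ (n * (n + 1) / 2) ≤
      (∏ a ∈ t, (Y a).ncard) * qq O ^ sumLe (fun i j => (e i j + 1).toNat)

/-- CCDY: from a smaller ideal to a larger one. -/
def CCDYStmt : Prop :=
  ∀ (R : Type) [CommRing R] (A : Set R) (I J : Ideal R) (M : ℕ), A.Finite → I ≤ J →
    Finite (R ⧸ I) → (∀ r : R, {a ∈ A | a - r ∈ I}.ncard * Nat.card (R ⧸ I) ≤ M) →
    ∀ r : R, {a ∈ A | a - r ∈ J}.ncard * Nat.card (R ⧸ J) ≤ M

/-- BIDY: the part of `(d)` at `T'`. -/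
def BIDYStmt : Prop :=
  ∀ (R : Type) [CommRing R] [IsDedekindDomain R] (K : Type) [Field K] [Algebra R K]
    [IsFractionRing R K] (O : ValuationSubring K) (π : K), GR R O π →
    ∀ (g : ℕ) (D : Dat R O) (y : HeightOneSpectrum R → Ty) (d : R) (E : ℕ), D.Ok g →
    TwE O π D y d E →
    ∃ b : Ideal R, b ≠ ⊥ ∧ Ideal.span {d} = b * ∏ P ∈ odd D.T y, P.asIdeal ∧
      (∀ P ∈ D.T, IsCoprime b P.asIdeal) ∧
      Nat.card (R ⧸ b) * (∏ P ∈ odd D.T y, Nm P) = qq O ^ E ∧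
      ∀ s : R, (∀ P : HeightOneSpectrum R, P ∉ odd D.T y →
        algebraMap R K s / algebraMap R K d ∈ RP K P) → s ∈ b

/-- CTMY: the bound for the number of pairs with local conditions (from CTSK of T1 for `G`, and for
given `G` from CTRG with the ideals `P` (`P ∈ T`, `y P = (0, _)`, CTXY), `P³` (`y P = (1, _)`, FBK,
P3K, TWOK) and `b` (BIDY, `S = 0` modulo `b`), CCDY). -/
def CTMYStmt : Prop :=
  ∀ (R : Type) [CommRing R] [IsDedekindDomain R] (K : Type) [Field K] [Algebra R K]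
    [IsFractionRing R K] (O : ValuationSubring K) (π : K), GR R O π → CntU R O π →
    ∀ (g : ℕ) (D : Dat R O) (h : ℕ) (y : HeightOneSpectrum R → Ty) (d : R) (E : ℕ)
    (e : Fin (2 * g + 1) → ℤ), 1 ≤ g → D.Ok g →
    (∀ P ∈ D.T, 2 * (2 * g + 1) * D.T.card ≤ Nm P) → TwE O π D y d E →
    (∀ (i j : Fin (2 * g + 1)) (r : R),
      {a ∈ Lm R O π (e i + e j + h + E) |
        a - r ∈ Ideal.span {d} * ∏ P ∈ D.T, P.asIdeal ^ 3}.ncard *
        Nat.card (R ⧸ Ideal.span {d} * ∏ P ∈ D.T, P.asIdeal ^ 3) ≤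
        qq O ^ (e i + e j + h + E + 1).toNat) →
    2 ^ D.T.card * (PPY π g D h y d E e).ncard * (∏ P ∈ D.T, Nm P) ^ (2 * g + 1) *
        qq O ^ (E * ((2 * g + 1) * (g + 1))) ≤
      2 * qq O ^ (EGk e + ESk e (h + E))

/-- CTTY: the trivial bound for the number of pairs (as CTTK of T1, from CTSK). -/
def CTTYStmt : Prop :=
  ∀ (R : Type) [CommRing R] [IsDomain R] (K : Type) [Field K] [Algebra R K]
    (O : ValuationSubring K) (π : K), CntU R O π → ∀ (g : ℕ) (D : Dat R O) (h : ℕ)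
    (y : HeightOneSpectrum R → Ty) (d : R) (E : ℕ) (e : Fin (2 * g + 1) → ℤ),
    (PPY π g D h y d E e).Finite ∧
    (PPY π g D h y d E e).ncard ≤ qq O ^ (EGk e + ESk e (h + E))

/-- CT1Y: orbits (as CT1K of T1; `f ↦ f.scaleRoots d` is injective, and `f.scaleRoots d` is
irreducible over `K`). -/
def CT1YStmt : Prop :=
  ∀ (R : Type) [CommRing R] [IsDedekindDomain R] (K : Type) [Field K] [Algebra R K]
    [IsFractionRing R K] (O : ValuationSubring K) (π : K), GR R O π →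
    ∀ (g : ℕ) (D : Dat R O) (h : ℕ) (y : HeightOneSpectrum R → Ty) (d : R) (E : ℕ)
    (e : Fin (2 * g + 1) → ℤ), 1 ≤ g → D.Ok g → d ≠ 0 →
    (∀ f ∈ Fam π g D h, Irreducible (fk K f)) → Monotone e → (PPY π g D h y d E e).Finite →
    (PFY π g D h y d E e).ncard * (UUK R O π e).ncard ≤ (PPY π g D h y d E e).ncard

/-- CTAY: the possible `e` (as CTAK of T1, with `h + E`). -/
def CTAYStmt : Prop :=
  ∀ (R : Type) [CommRing R] [IsDedekindDomain R] (K : Type) [Field K] [Algebra R K]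
    [IsFractionRing R K] (O : ValuationSubring K) (π : K), GR R O π →
    ∀ (g : ℕ) (D : Dat R O) (h C : ℕ) (y : HeightOneSpectrum R → Ty) (d : R) (E : ℕ)
    (e : Fin (2 * g + 1) → ℤ), 1 ≤ g → d ≠ 0 →
    (∀ f ∈ Fam π g D h, Irreducible (fk K f)) → Adm (C : ℤ) e →
    (PFY π g D h y d E e).Nonempty → Alw (h + E + 4 * C) (muK e)

/-- BADY: few polynomials have a nontrivial class with a given pattern (as BADK of T1, with `h + E`
instead of `h`: from CTMY, CTTY, CT1Y, CT2K, CTAY, EXPK, NUMK, QGEK, GEO). -/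
def BADYStmt : Prop :=
  ∀ (R : Type) [CommRing R] [IsDedekindDomain R] (K : Type) [Field K] [Algebra R K]
    [IsFractionRing R K] (O : ValuationSubring K) (π : K), GR R O π → CntU R O π →
    (∃ c : ℕ, CntL R O π c) → (∃ C : ℕ, CntC R O π C) → ∀ g : ℕ, 1 ≤ g →
    (∃ C : ℤ, KeyY R O π g C) → (∃ c : ℕ, FamL R O π g c) →
    (∀ (D : Dat R O) (h : ℕ), D.Ok g → ∀ f ∈ Fam π g D h, Irreducible (fk K f)) →
    ∀ T' : Finset (HeightOneSpectrum R), ∃ C b : ℕ, ∀ D : Dat R O, D.Ok g → D.T' = T' →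
    (∀ P ∈ D.T, b < Nm P ∧ 2 * (2 * g + 1) * D.T.card ≤ Nm P) →
    ∀ ϖ : HeightOneSpectrum R → R, Uni D.T ϖ →
    ∀ y : HeightOneSpectrum R → Ty, (∀ P ∈ D.T, y P ≠ (1, 1)) →
    ∀ (d : R) (E : ℕ), TwE O π D y d E →
    ∃ h₀ : ℕ, ∀ h : ℕ, h₀ ≤ h →
      2 ^ D.T.card * {f ∈ Fam π g D h | Pat K D ϖ y f}.ncard ≤ C * (Fam π g D h).ncard

end Pool.PRK
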